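import Mathlib
import Pool.Agent.Lib.helper22.Ultra

set_option autoImplicit false

namespace Pool.Agent.Results.MP_2734af_lc.NoMultiple

open Filter Pool.Agent.Lib.helper22.Ultra

/-- pairs (a, q) with q an odd prime and a < q -/
def Good (z : ℕ × ℕ) : Prop := z.2.Prime ∧ 2 < z.2 ∧ z.1 < z.2

theorem exists_H : ∃ H : Ultrafilter (ℕ × ℕ), (∀ᶠ z in (H : Filter (ℕ × ℕ)), Good z) ∧
    ∀ g : ℕ → ℕ, ∀ᶠ z in (H : Filter (ℕ × ℕ)), z.1 ≠ g z.2 := by
  classical
  obtain ⟨H, hH⟩ := Ultrafilter.exists_ultrafilter_of_finite_inter_nonempty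
    (Set.range (fun g : ℕ → ℕ => {z : ℕ × ℕ | Good z ∧ z.1 ≠ g z.2})) (by
    intro T hT
    have h1 : ∀ A ∈ T, ∃ g : ℕ → ℕ, A = {z : ℕ × ℕ | Good z ∧ z.1 ≠ g z.2} := by
      intro A hA
      obtain ⟨g, hg⟩ := hT hA
      exact ⟨g, hg.symm⟩
    choose! g hg using h1
    obtain ⟨q, hq, hp⟩ := Nat.exists_infinite_primes (T.card + 3)
    have hlt : (T.image (fun A => g A q)).card < (Finset.range q).card := by
      refine lt_of_le_of_lt Finset.card_image_le ?_
      rw [Finset.card_range]; omega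
    obtain ⟨a, ha, ha2⟩ := Finset.exists_mem_notMem_of_card_lt_card hlt
    refine ⟨(a, q), fun A hA => ?_⟩
    rw [hg A hA]
    refine ⟨⟨hp, by simp only; omega, Finset.mem_range.1 ha⟩, fun h => ha2 ?_⟩
    exact Finset.mem_image.2 ⟨A, hA, h.symm⟩)
  refine ⟨H, ?_, fun g => ?_⟩
  · filter_upwards [hH ⟨fun _ => 0, rfl⟩] with z hz using hz.1
  · filter_upwards [hH ⟨g, rfl⟩] with z hz using hz.2

def enc (z : ℕ × ℕ) : ℕ+ := (2 ^ z.1 * z.2).toPNat'

theorem enc_val {z : ℕ × ℕ} (h : Good z) : (enc z : ℕ) = 2 ^ z.1 * z.2 := by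
  have := h.2.1
  exact PNat.toPNat'_coe (by positivity)

theorem eq_of_dvd {z : ℕ × ℕ} (h : Good z) {q : ℕ} (hq : q.Prime) (h2 : 2 < q)
    (hd : q ∣ 2 ^ z.1 * z.2) : z.2 = q := by
  rcases (Nat.Prime.dvd_mul hq).1 hd with h3 | h3
  · have := Nat.le_of_dvd two_pos (hq.dvd_of_dvd_pow h3)
    omega
  · exact ((Nat.prime_dvd_prime_iff_eq hq h.1).1 h3).symm

theorem result (X : Type) :
    ∃ (I : Type) (W : Ultrafilter I), IsEnlarging W X ∧ IsEnlarging W ℕ+ ∧
      ∃ F G : Ultrafilter ℕ+, TildeDvd F G ∧ ∃ x ∈ monad W F, ∀ y ∈ monad W G, ¬ x ∣ y := by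
  classical
  obtain ⟨J, U, hX, hN⟩ := exists_enlarging X
  obtain ⟨H, hG, hH⟩ := exists_H
  let F : Ultrafilter ℕ+ := H.map (fun z => z.2.toPNat')
  refine ⟨ℕ+ × J, tens F U, hX.tens F, hN.tens F, F, H.map enc, ?_,
    ((Prod.fst : ℕ+ × J → ℕ+) : Germ _ ℕ+), ?_, ?_⟩
  · intro A hA
    change ∀ᶠ z in (H : Filter (ℕ × ℕ)), ∃ a ∈ A, a ∣ enc z
    filter_upwards [hA, hG] with z h1 h2
    refine ⟨_, h1, PNat.dvd_iff.2 ?_⟩
    rw [enc_val h2, PNat.toPNat'_coe h2.1.pos]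
    exact Dvd.intro_left _ rfl
  · intro A hA
    rw [Germ.liftPred_coe, eventually_tens]
    filter_upwards [hA] with a ha
    exact Eventually.of_forall fun _ => ha
  · intro y hy hd
    induction y using Germ.inductionOn with
    | h f =>
      have h1 := (eventually_tens F U _).1 (dvd_coe _ _ _ hd)
      have h2 := hy (enc '' {z | Good z}) (by
        change ∀ᶠ z in (H : Filter (ℕ × ℕ)), enc z ∈ enc '' {z | Good z}
        filter_upwards [hG] with z hz using ⟨z, hz, rfl⟩)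
      rw [Germ.liftPred_coe, eventually_tens] at h2
      have h3 : ∀ᶠ (q : ℕ+) in (F : Filter ℕ+), (q : ℕ).Prime ∧ 2 < (q : ℕ) := by
        change ∀ᶠ z in (H : Filter (ℕ × ℕ)), ((z.2.toPNat' : ℕ+) : ℕ).Prime ∧ 2 < ((z.2.toPNat' : ℕ+) : ℕ)
        filter_upwards [hG] with z hz
        rw [PNat.toPNat'_coe hz.1.pos]
        exact ⟨hz.1, hz.2.1⟩
      have h4 : ∀ᶠ (q : ℕ+) in (F : Filter ℕ+), ∃ a < (q : ℕ),
          ∀ᶠ j in (U : Filter J), f (q, j) = enc (a, q) := by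
        filter_upwards [h1, h2, h3] with q e1 e2 e3
        obtain ⟨m, ⟨a, ha, rfl⟩, hm⟩ := const_of_finite U (fun j => f (q, j))
          ((fun a => enc (a, q)) '' Set.Iio (q : ℕ)) ((Set.finite_Iio _).image _) (by
            filter_upwards [e1, e2] with j d1 d2
            obtain ⟨z, hz, hz2⟩ := d2
            have d3 := PNat.dvd_iff.1 d1
            rw [← hz2, enc_val hz] at d3
            have d4 := eq_of_dvd hz e3.1 e3.2 d3
            refine ⟨z.1, ?_, ?_⟩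
            · have := hz.2.2
              simp only [Set.mem_Iio]
              omega
            · simp only [← d4]; exact hz2)
        exact ⟨a, ha, hm⟩
      have h5 : ∀ q : ℕ+, ∃ a, (∃ a < (q : ℕ), ∀ᶠ j in (U : Filter J), f (q, j) = enc (a, q)) →
          a < (q : ℕ) ∧ ∀ᶠ j in (U : Filter J), f (q, j) = enc (a, q) := by
        intro q
        by_cases hq : ∃ a < (q : ℕ), ∀ᶠ j in (U : Filter J), f (q, j) = enc (a, q)
        · obtain ⟨a, ha⟩ := hq
          exact ⟨a, fun _ => ha⟩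
        · exact ⟨0, fun h => absurd h hq⟩
      choose g hg using h5
      have h6 := hy (enc '' {z | Good z ∧ z.1 ≠ g z.2.toPNat'}) (by
        change ∀ᶠ z in (H : Filter (ℕ × ℕ)), enc z ∈ enc '' {z | Good z ∧ z.1 ≠ g z.2.toPNat'}
        filter_upwards [hG, hH (fun q => g q.toPNat')] with z hz hz' using ⟨z, ⟨hz, hz'⟩, rfl⟩)
      rw [Germ.liftPred_coe, eventually_tens] at h6
      obtain ⟨q, e3, e4, e6⟩ := (h3.and (h4.and h6)).exists
      obtain ⟨e7, e8⟩ := hg q e4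
      obtain ⟨j, d1, z, ⟨hz, hz1⟩, hz2⟩ := (e8.and e6).exists
      have gq : Good (g q, q) := ⟨e3.1, e3.2, e7⟩
      have d2 : 2 ^ z.1 * z.2 = 2 ^ (g q) * q := by
        rw [← enc_val hz, hz2, d1, enc_val gq]
      have d3 : z.2 = q := eq_of_dvd hz e3.1 e3.2 (by rw [d2]; exact Dvd.intro_left _ rfl)
      rw [d3] at d2 hz1
      have d4 := Nat.pow_right_injective le_rfl (Nat.eq_of_mul_eq_mul_right q.pos d2)
      apply hz1
      rw [d4]
      simp

end Pool.Agent.Results.MP_2734af_lc.NoMultiple
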